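import Pool.Agent.Q220.Kneser.Certs

set_option autoImplicit false

/-!
# MP_9946dc_co, Q1: the Kneser graphs of small degree are Class 0

`kneser m t`, `Move`, `Reaches`, `rootedPebblingNumber`, `pebblingNumber` are defined in
`Pool/Agent/Q220/Kneser/Basic.lean`.
-/

namespace Pool.Agent.Results.MP_9946dc_co.SmallDegreeClassZero

open Pool.Agent.Q220.Kneser

lemma card_vertices (m t : ℕ) : Fintype.card {s : Finset (Fin m) // s.card = t} = m.choose t := by
  rw [Fintype.card_finset_len, Fintype.card_fin]

lemma pairs (t m : ℕ) (ht : 5 ≤ t) (hm : 5 * t - 1 ≤ 2 * m) (h : (m - t).choose t ≤ 511) :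
    (t = 5 ∧ (m = 12 ∨ m = 13 ∨ m = 14 ∨ m = 15 ∨ m = 16)) ∨
    (t = 6 ∧ (m = 15 ∨ m = 16 ∨ m = 17)) ∨ (t = 7 ∧ (m = 17 ∨ m = 18)) ∨ (t = 8 ∧ m = 20) := by
  have hlt : ∀ n, n ≤ m - t → n.choose t ≤ 511 := fun n hn => (Nat.choose_le_choose t hn).trans h
  rcases Nat.lt_or_ge t 9 with h9 | h9
  · interval_cases t
    · have : m - 5 < 12 := by
        by_contra hcon
        have := hlt 12 (by omega)
        revert this; decide
      omega
    · have : m - 6 < 12 := by
        by_contra hcon
        have := hlt 12 (by omega)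
        revert this; decide
      omega
    · have : m - 7 < 12 := by
        by_contra hcon
        have := hlt 12 (by omega)
        revert this; decide
      omega
    · have : m - 8 < 13 := by
        by_contra hcon
        have := hlt 13 (by omega)
        revert this; decide
      omega
  · exfalso
    have h1 := hlt (t + 4) (by omega)
    have h2 : (t + 4).choose t = (t + 4).choose 4 := by
      have := Nat.choose_symm_add (a := t) (b := 4)
      exact this
    have h3 : (13 : ℕ).choose 4 ≤ (t + 4).choose 4 := Nat.choose_le_choose 4 (by omega)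
    have h4 : (13 : ℕ).choose 4 = 715 := by decide
    omega

lemma classZero_of_cert {m t : ℕ} {W : ℕ → ℕ → ℕ} {P : ℕ → ℕ → ℕ × ℕ} {M : ℕ}
    (h : Cert m t W P M) : pebblingNumber (kneser m t) = m.choose t := by
  have hne : Nonempty {s : Finset (Fin m) // s.card = t} := by
    rw [← Fintype.card_pos_iff, card_vertices]
    exact Nat.choose_pos (by have := h.2.1; omega)
  rw [← card_vertices]
  exact pebbling_eq_card _ fun A C hC => reaches_of_cert h A C hC

/-- **MP_9946dc_co, Q1.**  For all `t ≥ 5` and `m ≥ (5 t - 1) / 2` with `C(m - t, t) ≤ 511` the Kneser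
graph `K(m, t)` is Class 0: its pebbling number is its number of vertices `C(m, t)`. -/
theorem result (t m : ℕ) (ht : 5 ≤ t) (hm : 5 * t - 1 ≤ 2 * m) (h : (m - t).choose t ≤ 511) :
    pebblingNumber (kneser m t) = Fintype.card {s : Finset (Fin m) // s.card = t} ∧
      Fintype.card {s : Finset (Fin m) // s.card = t} = m.choose t := by
  refine ⟨?_, card_vertices m t⟩
  rw [card_vertices]
  rcases pairs t m ht hm h with ⟨rfl, rfl | rfl | rfl | rfl | rfl⟩ | ⟨rfl, rfl | rfl | rfl⟩ |
    ⟨rfl, rfl | rfl⟩ | ⟨rfl, rfl⟩
  · exact classZero_of_cert cert12_5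
  · exact classZero_of_cert cert13_5
  · exact classZero_of_cert cert14_5
  · exact classZero_of_cert cert15_5
  · exact classZero_of_cert cert16_5
  · exact classZero_of_cert cert15_6
  · exact classZero_of_cert cert16_6
  · exact classZero_of_cert cert17_6
  · exact classZero_of_cert cert17_7
  · exact classZero_of_cert cert18_7
  · exact classZero_of_cert cert20_8

end Pool.Agent.Results.MP_9946dc_co.SmallDegreeClassZero
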